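import Pool.Agent.H66.L.T64922ed1.X84.Fm.Nd

/-!
# Nondegeneracy of critical points is stable under small perturbations
-/

open scoped Topology ContDiff Manifold
open Set Filter Bundle MeasureTheory

set_option autoImplicit false
set_option linter.unusedSectionVars false

noncomputable section

namespace Pool.Agent.X84.Pm

open Pool.Agent.X84.Fl Pool.Agent.X84.Fm

universe u

theorem inj_near {E F : Type*} [NormedAddCommGroup E] [NormedSpace ℝ E]
    [FiniteDimensional ℝ E] [NormedAddCommGroup F] [NormedSpace ℝ F] (M₀ : E →L[ℝ] F)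
    (h : ∀ w, M₀ w = 0 → w = 0) : ∀ᶠ M in 𝓝 M₀, ∀ w, M w = 0 → w = 0 := by
  have h1 : Function.Injective M₀ := by
    rw [injective_iff_map_eq_zero]
    exact h
  have h2 : LinearMap.ker ((M₀ : E →L[ℝ] F) : E →ₗ[ℝ] F) = ⊥ := LinearMap.ker_eq_bot.2 h1
  obtain ⟨K, hK0, hK⟩ := ((M₀ : E →L[ℝ] F) : E →ₗ[ℝ] F).exists_antilipschitzWith h2
  have hK0' : (0 : ℝ) < K := by exact_mod_cast hK0
  filter_upwards [Metric.ball_mem_nhds M₀ (show (0 : ℝ) < 1 / K by positivity)] with M hM w hw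
  by_contra hw0
  have h3 : ‖w‖ ≤ K * ‖M₀ w‖ := by
    have := hK.le_mul_dist w 0
    simpa [dist_zero_right] using this
  have h4 : M₀ w = (M₀ - M) w := by
    show M₀ w = M₀ w - M w
    rw [hw, sub_zero]
  have h5 : ‖M₀ w‖ ≤ ‖M₀ - M‖ * ‖w‖ := by
    rw [h4]
    exact (M₀ - M).le_opNorm w
  have h6 : ‖M₀ - M‖ < 1 / K := by
    rw [Metric.mem_ball, dist_eq_norm, norm_sub_rev] at hM
    exact hM
  have hwpos : 0 < ‖w‖ := norm_pos_iff.2 hw0
  have h7 : K * ‖M₀ w‖ < ‖w‖ := by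
    calc K * ‖M₀ w‖ ≤ K * (‖M₀ - M‖ * ‖w‖) := mul_le_mul_of_nonneg_left h5 hK0'.le
      _ < K * (1 / K * ‖w‖) := by
        apply mul_lt_mul_of_pos_left _ hK0'
        exact mul_lt_mul_of_pos_right h6 hwpos
      _ = ‖w‖ := by field_simp
  linarith

theorem pert_gen {E F : Type*} [NormedAddCommGroup E] [NormedSpace ℝ E]
    [FiniteDimensional ℝ E] [NormedAddCommGroup F] [NormedSpace ℝ F] {S : Type} [Fintype S]
    {O : Set E} (hO : IsOpen O) {f : E → F} {g : S → E → F} (hf : ContDiffOn ℝ 1 f O)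
    (hg : ∀ s, ContDiffOn ℝ 1 (g s) O) {u : E} (hu : u ∈ O) :
    (f u ≠ 0 → ∀ᶠ p : (S → ℝ) × E in 𝓝 (0, u), f p.2 + ∑ s, p.1 s • g s p.2 ≠ 0) ∧
    ((∀ w, fderiv ℝ f u w = 0 → w = 0) → ∀ᶠ p : (S → ℝ) × E in 𝓝 (0, u), ∀ w,
      fderiv ℝ (fun v => f v + ∑ s, p.1 s • g s v) p.2 w = 0 → w = 0) := by
  classical
  set D2 : (S → ℝ) × E → (E →L[ℝ] F) := fun p =>
    fderiv ℝ f p.2 + ∑ s, p.1 s • fderiv ℝ (g s) p.2 with hD2
  have hcdc : ∀ {q : E → F}, ContDiffOn ℝ 1 q O →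
      ContinuousAt (fun p : (S → ℝ) × E => q p.2) (0, u) := by
    intro q hq
    exact ContinuousAt.comp (f := fun p : (S → ℝ) × E => p.2) (x := (0, u))
      (hq.continuousOn.continuousAt (hO.mem_nhds hu)) continuousAt_snd
  have hfdc : ∀ {q : E → F}, ContDiffOn ℝ 1 q O →
      ContinuousAt (fun p : (S → ℝ) × E => fderiv ℝ q p.2) (0, u) := by
    intro q hq
    exact ContinuousAt.comp (f := fun p : (S → ℝ) × E => p.2) (x := (0, u))
      ((hq.continuousOn_fderiv_of_isOpen hO (by norm_num)).continuousAt (hO.mem_nhds hu))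
      continuousAt_snd
  have hs : ∀ s, ContinuousAt (fun p : (S → ℝ) × E => p.1 s) (0, u) := fun s =>
    ((continuous_apply s).comp continuous_fst).continuousAt
  constructor
  · intro h0
    have h1 : ContinuousAt (fun p : (S → ℝ) × E => f p.2 + ∑ s, p.1 s • g s p.2) (0, u) := by
      refine (hcdc hf).add ?_
      exact tendsto_finsetSum _ fun s _ => (hs s).smul (hcdc (hg s))
    refine h1.eventually (isOpen_ne.mem_nhds ?_)
    simpa using h0
  · intro hinj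
    have hD2c : ContinuousAt D2 (0, u) := by
      refine (hfdc hf).add ?_
      exact tendsto_finsetSum _ fun s _ => (hs s).smul (hfdc (hg s))
    have hD20 : D2 (0, u) = fderiv ℝ f u := by
      simp [hD2]
    have h1 := hD2c.eventually (inj_near _ (by rw [hD20]; exact hinj))
    have h2 : ∀ᶠ p : (S → ℝ) × E in 𝓝 (0, u), p.2 ∈ O :=
      (continuous_snd.tendsto ((0 : S → ℝ), u)).eventually (hO.mem_nhds hu)
    filter_upwards [h1, h2] with p hp hpO w hw
    refine hp w ?_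
    have hdq : ∀ {q : E → F}, ContDiffOn ℝ 1 q O → DifferentiableAt ℝ q p.2 := fun hq =>
      (hq.differentiableOn one_ne_zero p.2 hpO).differentiableAt (hO.mem_nhds hpO)
    have h3 : HasFDerivAt (fun v => f v + ∑ s, p.1 s • g s v) (D2 p) p.2 := by
      refine (hdq hf).hasFDerivAt.add ?_
      exact HasFDerivAt.fun_sum fun k _ => (hdq (hg k)).hasFDerivAt.const_smul (p.1 k)
    rw [h3.fderiv] at hw
    exact hw

section gen

universe v

variable {E : Type v} [NormedAddCommGroup E] [NormedSpace ℝ E] [FiniteDimensional ℝ E]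
  {P : Type u} [TopologicalSpace P] [ChartedSpace E P] [IsManifold 𝓘(ℝ, E) ∞ P] [T2Space P]

theorem pert_aux {S : Type} [Fintype S] {h : P → ℝ} (hh : ContMDiff 𝓘(ℝ, E) 𝓘(ℝ, ℝ) ∞ h)
    {g : S → P → ℝ} (hg : ∀ s, ContMDiff 𝓘(ℝ, E) 𝓘(ℝ, ℝ) ∞ (g s)) (x : P) :
    (cd (E := E) x h (extChartAt 𝓘(ℝ, E) x x) ≠ 0 → ∀ᶠ p : (S → ℝ) × P in 𝓝 (0, x),
      cd (E := E) x (pf h g p.1) (extChartAt 𝓘(ℝ, E) x p.2) ≠ 0) ∧
    ((∀ w, fderiv ℝ (cd (E := E) x h) (extChartAt 𝓘(ℝ, E) x x) w = 0 → w = 0) →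
      ∀ᶠ p : (S → ℝ) × P in 𝓝 (0, x), ∀ w,
        fderiv ℝ (cd (E := E) x (pf h g p.1)) (extChartAt 𝓘(ℝ, E) x p.2) w = 0 → w = 0) := by
  classical
  set e := extChartAt 𝓘(ℝ, E) x with he
  have hxs : x ∈ e.source := mem_extChartAt_source x
  have hxt : e x ∈ e.target := e.map_source hxs
  have hto : IsOpen e.target := isOpen_extChartAt_target x
  obtain ⟨hA, hB⟩ := pert_gen hto (cd_smooth (E := E) x hh) (fun s => cd_smooth (E := E) x (hg s))
    hxt
  have hmap : Tendsto (fun p : (S → ℝ) × P => (p.1, e p.2)) (𝓝 (0, x)) (𝓝 (0, e x)) := by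
    rw [nhds_prod_eq, nhds_prod_eq]
    exact tendsto_id.prodMap (continuousAt_extChartAt (I := 𝓘(ℝ, E)) x).tendsto
  have hsrc : ∀ᶠ p : (S → ℝ) × P in 𝓝 (0, x), p.2 ∈ e.source := by
    have h1 : ∀ᶠ y in 𝓝 x, y ∈ e.source := extChartAt_source_mem_nhds (I := 𝓘(ℝ, E)) x
    exact (continuous_snd.tendsto ((0 : S → ℝ), x)).eventually h1
  have hval1 : ∀ (s : S → ℝ) (u : E), u ∈ e.target → cd (E := E) x (pf h g s) u =
      cd (E := E) x h u + ∑ k, s k • cd (E := E) x (g k) u :=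
    fun s u hu => cd_pf (E := E) x hh hg s hu
  constructor
  · intro h0
    filter_upwards [hmap.eventually (hA h0), hsrc] with p hp hps hpc
    apply hp
    rw [← hval1 p.1 (e p.2) (e.map_source hps)]
    exact hpc
  · intro hinj
    filter_upwards [hmap.eventually (hB hinj), hsrc] with p hp hps w hw
    refine hp w ?_
    have h1 : cd (E := E) x (pf h g p.1) =ᶠ[𝓝 (e p.2)]
        fun u => cd (E := E) x h u + ∑ k, p.1 k • cd (E := E) x (g k) u := by
      filter_upwards [hto.mem_nhds (e.map_source hps)] with v hv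
      exact hval1 p.1 v hv
    rw [← h1.fderiv_eq]
    exact hw

end gen

open Pool.Agent.H718R2.G Pool.Agent.TH80.OMS Pool.Agent.Y504.CO Pool.Agent.Y318.MN

variable {n : ℕ} {N : Type u} [TopologicalSpace N] [T2Space N]
  [ChartedSpace (V n) N] [IsManifold (𝓡 n) ∞ N] [CompactSpace N]

/-- the critical point is nondegenerate, or the point is not critical -/
def Gd (n : ℕ) {N : Type u} [TopologicalSpace N] [ChartedSpace (V n) N] (h : N → ℝ) (x : N) :
    Prop := IsCrit n h x → Nondeg n h x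

theorem gd_open {S : Type} [Fintype S] {h : N → ℝ} (hh : ContMDiff (𝓡 n) 𝓘(ℝ, ℝ) ∞ h)
    {g : S → N → ℝ} (hg : ∀ s, ContMDiff (𝓡 n) 𝓘(ℝ, ℝ) ∞ (g s)) (x : N) (hx : Gd n h x) :
    ∀ᶠ p : (S → ℝ) × N in 𝓝 (0, x), Gd n (pf h g p.1) p.2 := by
  obtain ⟨hA, hB⟩ := pert_aux (E := V n) hh hg x
  have hsrc : ∀ᶠ p : (S → ℝ) × N in 𝓝 (0, x), p.2 ∈ (extChartAt (𝓡 n) x).source := by
    have h1 : ∀ᶠ y in 𝓝 x, y ∈ (extChartAt (𝓡 n) x).source :=
      extChartAt_source_mem_nhds (I := 𝓡 n) x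
    exact (continuous_snd.tendsto ((0 : S → ℝ), x)).eventually h1
  by_cases h0 : cd (E := V n) x h (extChartAt (𝓡 n) x x) = 0
  · have hcr : IsCrit n h x :=
      (crit_iff hh (IsManifold.chart_mem_maximalAtlas (I := 𝓡 n) (n := ∞) x)
        (mem_chart_source (V n) x)).2 h0
    have h1 := hB fun w hw =>
      hx hcr (chartAt (V n) x) (IsManifold.chart_mem_maximalAtlas (I := 𝓡 n) (n := ∞) x)
        (mem_chart_source (V n) x) w hw
    filter_upwards [h1, hsrc] with p hp hps hpc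
    have hq := pf_smooth (E := V n) hh hg p.1
    refine nondeg_of_chart hq (IsManifold.chart_mem_maximalAtlas (I := 𝓡 n) (n := ∞) x)
      (by rwa [extChartAt_source] at hps) ?_ ?_
    · exact cd_crit (E := V n) x hq hps hpc
    · exact hp
  · filter_upwards [hA h0, hsrc] with p hp hps hpc
    exfalso
    apply hp
    exact cd_crit (E := V n) x (pf_smooth (E := V n) hh hg p.1) hps hpc

/-- goodness on a closed set is stable -/
theorem gd_stable {S : Type} [Fintype S] {h : N → ℝ} (hh : ContMDiff (𝓡 n) 𝓘(ℝ, ℝ) ∞ h)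
    {g : S → N → ℝ} (hg : ∀ s, ContMDiff (𝓡 n) 𝓘(ℝ, ℝ) ∞ (g s)) {C : Set N} (hC : IsClosed C)
    (hgd : ∀ x ∈ C, Gd n h x) : ∀ᶠ s : S → ℝ in 𝓝 0, ∀ x ∈ C, Gd n (pf h g s) x :=
  hC.isCompact.eventually_forall_of_forall_eventually fun x hx => gd_open hh hg x (hgd x hx)

/-- the good points form an open set -/
theorem gd_isOpen {h : N → ℝ} (hh : ContMDiff (𝓡 n) 𝓘(ℝ, ℝ) ∞ h) : IsOpen {x | Gd n h x} := by
  rw [isOpen_iff_mem_nhds]
  intro x hx
  have h1 := gd_open (S := Empty) hh (g := fun s => s.elim) (fun s => s.elim) x hx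
  have h2 : Tendsto (fun y : N => ((0 : Empty → ℝ), y)) (𝓝 x) (𝓝 (0, x)) :=
    (Continuous.prodMk_right (0 : Empty → ℝ)).tendsto x
  filter_upwards [h2.eventually h1] with y hy
  have h3 : pf h (fun s : Empty => s.elim) (0 : Empty → ℝ) = h := by
    funext z
    simp [pf]
  simp only [h3] at hy
  exact hy

end Pool.Agent.X84.Pm
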