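import Pool.Agent.H66.L.T64922ed1.X84.Fm.Sard

/-!
# Nondegenerate critical points of functions invariant under a linear map of finite order
-/

open Set Filter Topology MeasureTheory
open scoped ContDiff InnerProductSpace

set_option autoImplicit false

noncomputable section

namespace Pool.Agent.X84.Pm

section isol

/-- a set of isolated points is countable -/
theorem countable_of_isolated {X : Type*} [TopologicalSpace X] [SecondCountableTopology X]
    {Z : Set X} (h : ∀ x ∈ Z, ∀ᶠ y in 𝓝[≠] x, y ∉ Z) : Z.Countable := by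
  have h1 : DiscreteTopology Z := by
    rw [discreteTopology_subtype_iff]
    intro x hx
    rw [← disjoint_iff, disjoint_principal_right]
    filter_upwards [h x hx] with y hy
    exact hy
  have h2 : SecondCountableTopology Z := inferInstance
  have h3 : Countable Z := TopologicalSpace.separableSpace_iff_countable.1 inferInstance
  exact h3.to_set

theorem isolated_of_inj {E F : Type*} [NormedAddCommGroup E] [NormedSpace ℝ E]
    [FiniteDimensional ℝ E] [NormedAddCommGroup F] [NormedSpace ℝ F] {f : E → F} {u : E}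
    (hd : DifferentiableAt ℝ f u) (hinj : ∀ w, fderiv ℝ f u w = 0 → w = 0) :
    ∀ᶠ v in 𝓝[≠] u, f v ≠ f u := by
  have h1 : Function.Injective (fderiv ℝ f u) := by
    rw [injective_iff_map_eq_zero]
    exact hinj
  have h2 : LinearMap.ker ((fderiv ℝ f u : E →L[ℝ] F) : E →ₗ[ℝ] F) = ⊥ := LinearMap.ker_eq_bot.2 h1
  obtain ⟨K, -, hK⟩ := ((fderiv ℝ f u : E →L[ℝ] F) : E →ₗ[ℝ] F).exists_antilipschitzWith h2
  exact hd.hasFDerivAt.eventually_ne ⟨K, hK⟩

end isol

variable {E : Type*} [NormedAddCommGroup E] [InnerProductSpace ℝ E]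

/-- `∑ Lⁱ` -/
def av (L : E →L[ℝ] E) (m : ℕ) : E →L[ℝ] E := ∑ i ∈ Finset.range m, L ^ i

/-- `L^(i+1) - L^i` -/
def dl (L : E →L[ℝ] E) (i : ℕ) : E →L[ℝ] E := L ^ (i + 1) - L ^ i

/-- the quadratic form `∑ ‖L^(i+1) v - L^i v‖²` -/
def Qf (L : E →L[ℝ] E) (m : ℕ) (v : E) : ℝ := ∑ i ∈ Finset.range m, ‖dl L i v‖ ^ 2

/-- the inner product -/
def bl (E : Type*) [NormedAddCommGroup E] [InnerProductSpace ℝ E] : E →L[ℝ] E →L[ℝ] ℝ := innerSL ℝ

/-- its derivative -/
def Nb (L : E →L[ℝ] E) (m : ℕ) : E →L[ℝ] E →L[ℝ] ℝ :=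
  ∑ i ∈ Finset.range m, (2 : ℝ) • (bl E).bilinearComp (dl L i) (dl L i)

theorem av_apply (L : E →L[ℝ] E) (m : ℕ) (v : E) : av L m v = ∑ i ∈ Finset.range m, (L ^ i) v := by
  unfold av
  rw [sum_apply]

theorem Nb_apply (L : E →L[ℝ] E) (m : ℕ) (v w : E) :
    Nb L m v w = ∑ i ∈ Finset.range m, 2 * ⟪dl L i v, dl L i w⟫_ℝ := by
  unfold Nb
  rw [sum_apply, sum_apply]
  rfl

variable {L : E →L[ℝ] E} {m : ℕ}

theorem pow_fix {v : E} (h : L v = v) (i : ℕ) : (L ^ i) v = v := by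
  induction i with
  | zero => rfl
  | succ i ih =>
    rw [pow_succ]
    show (L ^ i) (L v) = v
    rw [h, ih]

theorem av_fix {v : E} (h : L v = v) : av L m v = (m : ℝ) • v := by
  rw [av_apply, Finset.sum_congr rfl fun i _ => pow_fix h i, Finset.sum_const, Finset.card_range,
    Nat.cast_smul_eq_nsmul]

theorem av_L (hL : L ^ m = 1) (v : E) : av L m (L v) = av L m v := by
  rw [av_apply, av_apply]
  have h1 : ∀ i, (L ^ i) (L v) = (L ^ (i + 1)) v := fun i => by
    rw [pow_succ]; rfl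
  rw [Finset.sum_congr rfl fun i _ => h1 i]
  have h2 := Finset.sum_range_succ (fun i => (L ^ i) v) m
  have h3 := Finset.sum_range_succ' (fun i => (L ^ i) v) m
  rw [h2, hL, pow_zero] at h3
  exact (add_right_cancel h3).symm

theorem L_av (hL : L ^ m = 1) (v : E) : L (av L m v) = av L m v := by
  rw [av_apply, map_sum]
  have h1 : ∀ i, L ((L ^ i) v) = (L ^ (i + 1)) v := fun i => by
    rw [pow_succ']; rfl
  rw [Finset.sum_congr rfl fun i _ => h1 i]
  have h2 := Finset.sum_range_succ (fun i => (L ^ i) v) m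
  have h3 := Finset.sum_range_succ' (fun i => (L ^ i) v) m
  rw [h2, hL, pow_zero] at h3
  exact (add_right_cancel h3).symm

theorem dl_fix {v : E} (h : L v = v) (i : ℕ) : dl L i v = 0 := by
  show (L ^ (i + 1)) v - (L ^ i) v = 0
  rw [pow_fix h, pow_fix h, sub_self]

theorem Qf_L (hL : L ^ m = 1) (v : E) : Qf L m (L v) = Qf L m v := by
  unfold Qf
  have h1 : ∀ i, dl L i (L v) = dl L (i + 1) v := fun i => by
    show (L ^ (i + 1)) (L v) - (L ^ i) (L v) = (L ^ (i + 1 + 1)) v - (L ^ (i + 1)) v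
    rw [pow_succ L (i + 1), pow_succ L i]
    rfl
  rw [Finset.sum_congr rfl fun i _ => by rw [h1 i]]
  have h2 := Finset.sum_range_succ (fun i => ‖dl L i v‖ ^ 2) m
  have h3 := Finset.sum_range_succ' (fun i => ‖dl L i v‖ ^ 2) m
  have h4 : dl L m v = dl L 0 v := by
    show (L ^ (m + 1)) v - (L ^ m) v = (L ^ (0 + 1)) v - (L ^ 0) v
    rw [pow_succ, hL, pow_zero, zero_add, pow_one]
    rfl
  rw [h2, h4] at h3
  exact (add_right_cancel h3).symm

theorem hasFDerivAt_Qf (L : E →L[ℝ] E) (m : ℕ) (v : E) : HasFDerivAt (Qf L m) (Nb L m v) v := by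
  have h1 : HasFDerivAt (fun v => ∑ i ∈ Finset.range m, ‖dl L i v‖ ^ 2)
      (∑ i ∈ Finset.range m, (2 : ℝ) • (innerSL ℝ (dl L i v)).comp (dl L i)) v := by
    refine HasFDerivAt.fun_sum fun i _ => ?_
    have h2 := (dl L i).hasFDerivAt (x := v) |>.norm_sq
    rw [two_smul] at h2 ⊢
    exact h2
  have h3 : Nb L m v = ∑ i ∈ Finset.range m, (2 : ℝ) • (innerSL ℝ (dl L i v)).comp (dl L i) := by
    unfold Nb
    rw [sum_apply]
    rfl
  rw [h3]
  exact h1

theorem Nb_fix_left {v : E} (h : L v = v) : Nb L m v = 0 := by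
  ext w
  rw [Nb_apply]
  simp [dl_fix h]

theorem Nb_fix_right {w : E} (h : L w = w) (v : E) : Nb L m v w = 0 := by
  rw [Nb_apply]
  simp [dl_fix h]

/-- the bilinear form `Nb + ⟨av, av⟩` -/
def Jb (L : E →L[ℝ] E) (m : ℕ) : E →L[ℝ] E →L[ℝ] ℝ :=
  Nb L m + (bl E).bilinearComp (av L m) (av L m)

theorem Jb_apply (L : E →L[ℝ] E) (m : ℕ) (v w : E) :
    Jb L m v w = Nb L m v w + ⟪av L m v, av L m w⟫_ℝ := rfl

theorem Jb_inj (hm : 1 ≤ m) {w : E} (h : Jb L m w = 0) : w = 0 := by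
  have h1 : Jb L m w w = 0 := by rw [h]; rfl
  rw [Jb_apply, Nb_apply, real_inner_self_eq_norm_sq] at h1
  have h2 : ∀ i ∈ Finset.range m, 0 ≤ 2 * ⟪dl L i w, dl L i w⟫_ℝ := fun i _ => by
    rw [real_inner_self_eq_norm_sq]; positivity
  have h3 := Finset.sum_nonneg h2
  have h4 : ‖av L m w‖ ^ 2 = 0 := by
    have := sq_nonneg ‖av L m w‖
    linarith
  have h5 : ∑ i ∈ Finset.range m, 2 * ⟪dl L i w, dl L i w⟫_ℝ = 0 := by linarith
  have h6 := (Finset.sum_eq_zero_iff_of_nonneg h2).1 h5 0 (Finset.mem_range.2 (by omega))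
  rw [real_inner_self_eq_norm_sq] at h6
  have h7 : dl L 0 w = 0 := by
    rw [← norm_eq_zero]
    have : ‖dl L 0 w‖ ^ 2 = 0 := by linarith
    exact pow_eq_zero_iff (by norm_num) |>.1 this
  have h8 : L w = w := by
    have h9 : (L ^ (0 + 1)) w - (L ^ 0) w = 0 := h7
    rw [zero_add, pow_one, pow_zero] at h9
    exact sub_eq_zero.1 h9
  have h10 : av L m w = 0 := by
    rw [← norm_eq_zero]
    exact pow_eq_zero_iff (by norm_num) |>.1 h4
  rw [av_fix h8, smul_eq_zero] at h10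
  rcases h10 with h10 | h10
  · exfalso
    have : m = 0 := by exact_mod_cast h10
    omega
  · exact h10

variable [FiniteDimensional ℝ E]

/-- finitely many bad constants -/
theorem finite_bad (hm : 1 ≤ m) (M : E →L[ℝ] E →L[ℝ] ℝ) :
    {c : ℝ | ∃ w : E, w ≠ 0 ∧ M w + c • Jb L m w = 0}.Finite := by
  have hdim : Module.finrank ℝ (E →L[ℝ] ℝ) = Module.finrank ℝ E := by
    rw [← (LinearMap.toContinuousLinearMap (𝕜 := ℝ) (E := E) (F' := ℝ)).finrank_eq]
    exact (Subspace.dual_finrank_eq (K := ℝ) (V := E))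
  let τ : (E →L[ℝ] ℝ) ≃L[ℝ] E := ContinuousLinearEquiv.ofFinrankEq hdim
  let J : E →ₗ[ℝ] E := (τ : (E →L[ℝ] ℝ) →ₗ[ℝ] E) ∘ₗ (Jb L m : E →ₗ[ℝ] E →L[ℝ] ℝ)
  have hJ : Function.Injective J := by
    rw [injective_iff_map_eq_zero]
    intro w hw
    apply Jb_inj (L := L) hm
    exact τ.injective (hw.trans (map_zero τ).symm)
  let Je := LinearEquiv.ofInjectiveEndo J hJ
  let K : Module.End ℝ E := (Je.symm : E →ₗ[ℝ] E) ∘ₗ
    ((τ : (E →L[ℝ] ℝ) →ₗ[ℝ] E) ∘ₗ (M : E →ₗ[ℝ] E →L[ℝ] ℝ))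
  have hfin : {μ : ℝ | K.HasEigenvalue μ}.Finite := Module.End.finite_hasEigenvalue K
  refine (hfin.preimage (f := fun c : ℝ => -c) (neg_injective.injOn)).subset ?_
  rintro c ⟨w, hw, h⟩
  show K.HasEigenvalue (-c)
  refine Module.End.hasEigenvalue_of_hasEigenvector (x := w) ⟨?_, hw⟩
  rw [Module.End.mem_eigenspace_iff]
  show Je.symm (τ (M w)) = (-c) • w
  rw [LinearEquiv.symm_apply_eq, map_smul]
  show τ (M w) = (-c) • τ (Jb L m w)
  have h2 : M w = (-c) • Jb L m w := by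
    have h3 := eq_neg_of_add_eq_zero_left h
    rw [h3]
    ext v
    simp
  rw [h2, map_smul]

omit [FiniteDimensional ℝ E] in
/-- Generic linear perturbations along a subspace. -/
theorem restr_generic {F : Type*} [NormedAddCommGroup F] [NormedSpace ℝ F] [FiniteDimensional ℝ F]
    (ι : F →L[ℝ] E) {Ω : Set E} (hΩ : IsOpen Ω) (H : E → ℝ) (hH : ContDiffOn ℝ ∞ H Ω)
    {ε : ℝ} (hε : 0 < ε) :
    ∃ α : F →L[ℝ] ℝ, ‖α‖ < ε ∧ (∀ t, ι t ∈ Ω → (fderiv ℝ H (ι t)).comp ι + α = 0 → ∀ w,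
      (∀ v, fderiv ℝ (fderiv ℝ H) (ι t) (ι w) (ι v) = 0) → w = 0) ∧
      {t : F | ι t ∈ Ω ∧ (fderiv ℝ H (ι t)).comp ι + α = 0}.Countable := by
  classical
  have hf1 : ContDiffOn ℝ 1 (fderiv ℝ H) Ω := hH.fderiv_of_isOpen hΩ (by norm_cast)
  have hd2 : ∀ v ∈ Ω, DifferentiableAt ℝ (fderiv ℝ H) v := fun v hv =>
    ((hf1.differentiableOn one_ne_zero) v hv).differentiableAt (hΩ.mem_nhds hv)
  set D : F → (F →L[ℝ] ℝ) := fun t => (fderiv ℝ H (ι t)).comp ι with hD
  have hDd : ∀ t : F, ι t ∈ Ω → HasFDerivAt D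
      (((ContinuousLinearMap.compL ℝ F E ℝ).flip ι).comp ((fderiv ℝ (fderiv ℝ H) (ι t)).comp ι)) t := by
    intro t ht
    have h1 : HasFDerivAt (fun t : F => fderiv ℝ H (ι t)) ((fderiv ℝ (fderiv ℝ H) (ι t)).comp ι) t :=
      HasFDerivAt.comp t (hd2 _ ht).hasFDerivAt ι.hasFDerivAt
    exact ((ContinuousLinearMap.compL ℝ F E ℝ).flip ι).hasFDerivAt.comp t h1
  have hDapp : ∀ t : F, ι t ∈ Ω → ∀ w v : F, fderiv ℝ D t w v =
      fderiv ℝ (fderiv ℝ H) (ι t) (ι w) (ι v) := by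
    intro t ht w v
    rw [(hDd t ht).fderiv]
    rfl
  have hdim : Module.finrank ℝ (F →L[ℝ] ℝ) = Module.finrank ℝ F := by
    rw [← (LinearMap.toContinuousLinearMap (𝕜 := ℝ) (E := F) (F' := ℝ)).finrank_eq]
    exact (Subspace.dual_finrank_eq (K := ℝ) (V := F))
  let τ : (F →L[ℝ] ℝ) ≃L[ℝ] F := ContinuousLinearEquiv.ofFinrankEq hdim
  borelize (F →L[ℝ] ℝ)
  set Φ : F × (F →L[ℝ] ℝ) → F := fun p => τ (D p.1 + p.2) with hΦ
  have hΩT : IsOpen {t : F | ι t ∈ Ω} := hΩ.preimage ι.continuous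
  have hDs : ContDiffOn ℝ 1 D {t : F | ι t ∈ Ω} := by
    have h1 : ContDiffOn ℝ 1 (fun t : F => fderiv ℝ H (ι t)) {t : F | ι t ∈ Ω} :=
      hf1.comp ι.contDiff.contDiffOn fun t ht => ht
    exact ((ContinuousLinearMap.compL ℝ F E ℝ).flip ι).contDiff.comp_contDiffOn h1
  have hΦs : ContDiffOn ℝ 1 Φ ({t : F | ι t ∈ Ω} ×ˢ univ) := by
    refine τ.contDiff.comp_contDiffOn ?_
    refine ContDiffOn.add ?_ contDiff_snd.contDiffOn
    exact hDs.comp contDiff_fst.contDiffOn fun p hp => hp.1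
  have hae := Pool.Agent.X84.Fm.generic_det (Measure.addHaar (G := F →L[ℝ] ℝ)) hΩT Φ hΦs τ.symm
    (fun u _ a b => by
      simp only [hΦ]
      rw [← add_assoc, map_add, ContinuousLinearEquiv.apply_symm_apply])
  obtain ⟨α, hα, hαε⟩ : ∃ α : F →L[ℝ] ℝ, (∀ u ∈ {t : F | ι t ∈ Ω}, Φ (u, α) = 0 →
      ∀ w, fderiv ℝ (fun v => Φ (v, α)) u w = 0 → w = 0) ∧ ‖α‖ < ε := by
    obtain ⟨α, h1, h2⟩ := (Measure.dense_of_ae hae).exists_mem_open
      (Metric.isOpen_ball (x := (0 : F →L[ℝ] ℝ)) (ε := ε)) ⟨0, Metric.mem_ball_self hε⟩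
    exact ⟨α, h1, by simpa using h2⟩
  have hα' : ∀ t : F, ι t ∈ Ω → D t + α = 0 → ∀ w, fderiv ℝ D t w = 0 → w = 0 := by
    intro t ht h0 w hw
    refine hα t ht (by simp only [hΦ]; rw [h0, map_zero]) w ?_
    have h1 : HasFDerivAt (fun v => Φ (v, α)) ((τ : (F →L[ℝ] ℝ) →L[ℝ] F).comp (fderiv ℝ D t)) t := by
      have h2 : HasFDerivAt D (fderiv ℝ D t) t := (hDd t ht).differentiableAt.hasFDerivAt
      exact (τ : (F →L[ℝ] ℝ) →L[ℝ] F).hasFDerivAt.comp t (h2.add_const α)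
    rw [h1.fderiv]
    show τ (fderiv ℝ D t w) = 0
    rw [hw, map_zero]
  refine ⟨α, hαε, fun t ht h0 w hw => hα' t ht h0 w ?_, ?_⟩
  · ext v
    rw [hDapp t ht]
    exact hw v
  · refine countable_of_isolated ?_
    rintro t ⟨ht, h0⟩
    have h1 := isolated_of_inj (hDd t ht).differentiableAt (hα' t ht h0)
    filter_upwards [h1] with s hs hsZ
    apply hs
    have h2 : D s + α = 0 := hsZ.2
    have h3 : D t + α = 0 := h0
    rw [← h3] at h2
    exact add_right_cancel h2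

/-- **Generic invariant perturbations in linear coordinates.** -/
theorem lin_generic (hm : 1 ≤ m) (hL : L ^ m = 1) {Ω : Set E} (hΩ : IsOpen Ω)
    (hLΩ : ∀ v ∈ Ω, L v ∈ Ω) (H : E → ℝ) (hH : ContDiffOn ℝ ∞ H Ω) (hinv : ∀ v ∈ Ω, H (L v) = H v)
    {ε : ℝ} (hε : 0 < ε) :
    ∃ (l : E →L[ℝ] ℝ) (c : ℝ), ‖l‖ < ε ∧ |c| < ε ∧ ∀ u ∈ Ω, L u = u →
      fderiv ℝ (fun v => H v + (l (av L m v) + c * Qf L m v)) u = 0 →
      ∀ w, fderiv ℝ (fderiv ℝ (fun v => H v + (l (av L m v) + c * Qf L m v))) u w = 0 → w = 0 := by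
  classical
  set T : Submodule ℝ E := LinearMap.ker ((L : E →ₗ[ℝ] E) - LinearMap.id) with hTd
  have hT : ∀ v : E, v ∈ T ↔ L v = v := fun v => by
    rw [hTd, LinearMap.mem_ker]
    show L v - v = 0 ↔ _
    exact sub_eq_zero
  set ι : T →L[ℝ] E := T.subtypeL with hι
  have hd1 : ∀ v ∈ Ω, DifferentiableAt ℝ H v := fun v hv =>
    ((hH.differentiableOn (by simp)) v hv).differentiableAt (hΩ.mem_nhds hv)
  have hf1 : ContDiffOn ℝ 1 (fderiv ℝ H) Ω := hH.fderiv_of_isOpen hΩ (by norm_cast)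
  have hd2 : ∀ v ∈ Ω, DifferentiableAt ℝ (fderiv ℝ H) v := fun v hv =>
    ((hf1.differentiableOn one_ne_zero) v hv).differentiableAt (hΩ.mem_nhds hv)
  obtain ⟨α, hαε, hα', hZc⟩ := restr_generic ι hΩ H hH hε
  set Z : Set T := {t : T | ι t ∈ Ω ∧ (fderiv ℝ H (ι t)).comp ι + α = 0} with hZ
  set B : Set ℝ := ⋃ t ∈ Z, {c : ℝ | ∃ w : E, w ≠ 0 ∧
    fderiv ℝ (fderiv ℝ H) ((t : T) : E) w + c • Jb L m w = 0} with hB
  have hBc : B.Countable := hZc.biUnion fun t _ => (finite_bad hm _).countable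
  obtain ⟨c, hcB, hc⟩ := (hBc.dense_compl ℝ).exists_mem_open
    (Metric.isOpen_ball (x := (0 : ℝ)) (ε := ε)) ⟨0, Metric.mem_ball_self hε⟩
  have hm0 : (0 : ℝ) < m := by exact_mod_cast hm
  set l : E →L[ℝ] ℝ := (1 / (m : ℝ)) • α.comp T.orthogonalProjectionOnto with hl
  have hlT : ∀ t : T, l (av L m t) = α t := by
    intro t
    rw [av_fix ((hT t).1 t.2), map_smul]
    show (m : ℝ) • ((1 / (m : ℝ)) • α (T.orthogonalProjectionOnto (t : E))) = α t
    rw [Submodule.orthogonalProjectionOnto_mem_subspace_eq_self, smul_smul, mul_one_div,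
      div_self hm0.ne', one_smul]
  refine ⟨l, c, ?_, by simpa using hc, ?_⟩
  · have h1 : ‖α.comp T.orthogonalProjectionOnto‖ ≤ ‖α‖ := by
      refine (ContinuousLinearMap.opNorm_comp_le _ _).trans ?_
      have := T.orthogonalProjectionOnto_norm_le
      nlinarith [norm_nonneg α]
    have h2 : ‖l‖ = 1 / (m : ℝ) * ‖α.comp T.orthogonalProjectionOnto‖ := by
      rw [hl, norm_smul, Real.norm_of_nonneg (by positivity)]
    have h3 : 1 / (m : ℝ) ≤ 1 := by
      rw [div_le_one hm0]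
      exact_mod_cast hm
    rw [h2]
    have h4 := norm_nonneg (α.comp T.orthogonalProjectionOnto)
    nlinarith
  · intro u hu hLu h0 w hw
    have hder : ∀ v ∈ Ω, fderiv ℝ (fun v => H v + (l (av L m v) + c * Qf L m v)) v =
        fderiv ℝ H v + (l.comp (av L m) + c • Nb L m v) := by
      intro v hv
      have h1 : HasFDerivAt (fun v => l (av L m v)) (l.comp (av L m)) v :=
        (l.comp (av L m)).hasFDerivAt
      exact ((hd1 v hv).hasFDerivAt.add (h1.add ((hasFDerivAt_Qf L m v).const_mul c))).fderiv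
    have hder2 : fderiv ℝ (fderiv ℝ (fun v => H v + (l (av L m v) + c * Qf L m v))) u =
        fderiv ℝ (fderiv ℝ H) u + c • Nb L m := by
      have h1 : fderiv ℝ (fun v => H v + (l (av L m v) + c * Qf L m v)) =ᶠ[𝓝 u]
          fun v => fderiv ℝ H v + (l.comp (av L m) + c • Nb L m v) := by
        filter_upwards [hΩ.mem_nhds hu] with v hv
        exact hder v hv
      rw [h1.fderiv_eq]
      have h2 : HasFDerivAt (fun v => fderiv ℝ H v + (l.comp (av L m) + c • Nb L m v))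
          (fderiv ℝ (fderiv ℝ H) u + c • Nb L m) u := by
        refine (hd2 u hu).hasFDerivAt.add ?_
        exact ((Nb L m).hasFDerivAt.const_smul c).const_add _
      exact h2.fderiv
    rw [hder u hu, Nb_fix_left hLu, smul_zero, add_zero] at h0
    rw [hder2] at hw
    set M := fderiv ℝ (fderiv ℝ H) u with hM
    have huT : u ∈ T := (hT u).2 hLu
    have hcrit : (fderiv ℝ H (ι ⟨u, huT⟩)).comp ι + α = 0 := by
      ext t
      have h1 := DFunLike.congr_fun h0 (t : E)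
      have h2 : fderiv ℝ H u (t : E) + l (av L m (t : E)) = 0 := h1
      rw [hlT] at h2
      exact h2
    -- invariance of the second derivative
    have hMinv : ∀ x y : E, M (L x) (L y) = M x y := by
      have h1 : fderiv ℝ H =ᶠ[𝓝 u] fun v => (fderiv ℝ H (L v)).comp L := by
        filter_upwards [hΩ.mem_nhds hu] with v hv
        have h2 : (fun v => H (L v)) =ᶠ[𝓝 v] H := by
          filter_upwards [hΩ.mem_nhds hv] with z hz
          exact hinv z hz
        have h3 : HasFDerivAt (fun v => H (L v)) ((fderiv ℝ H (L v)).comp L) v :=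
          HasFDerivAt.comp v (hd1 _ (hLΩ v hv)).hasFDerivAt L.hasFDerivAt
        rw [← h2.fderiv_eq, h3.fderiv]
      have h4 : HasFDerivAt (fun v => (fderiv ℝ H (L v)).comp L)
          (((ContinuousLinearMap.compL ℝ E E ℝ).flip L).comp (M.comp L)) u := by
        have h5 : HasFDerivAt (fun v => fderiv ℝ H (L v)) (M.comp L) u := by
          have h6 : HasFDerivAt (fderiv ℝ H) M (L u) := by
            rw [hLu]
            exact (hd2 u hu).hasFDerivAt
          exact HasFDerivAt.comp u h6 L.hasFDerivAt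
        exact ((ContinuousLinearMap.compL ℝ E E ℝ).flip L).hasFDerivAt.comp u h5
      have h7 : M = ((ContinuousLinearMap.compL ℝ E E ℝ).flip L).comp (M.comp L) := by
        conv_lhs => rw [hM, h1.fderiv_eq]
        exact h4.fderiv
      intro x y
      conv_rhs => rw [h7]
      rfl
    have hMT : ∀ (x y : E), L y = y → M (L x) y = M x y := by
      intro x y hy
      have h1 := hMinv x y
      rwa [hy] at h1
    have hMpow : ∀ (i : ℕ) (x y : E), L y = y → M ((L ^ i) x) y = M x y := by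
      intro i
      induction i with
      | zero => intro x y _; rfl
      | succ i ih =>
        intro x y hy
        rw [pow_succ']
        show M (L ((L ^ i) x)) y = M x y
        rw [hMT _ _ hy, ih _ _ hy]
    have hMav : ∀ (x y : E), L y = y → M (av L m x) y = m * M x y := by
      intro x y hy
      rw [av_apply, map_sum, sum_apply,
        Finset.sum_congr rfl fun i _ => hMpow i x y hy, Finset.sum_const, Finset.card_range,
        nsmul_eq_mul]
    have hA0 : av L m w = 0 := by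
      have hAT : av L m w ∈ T := (hT _).2 (L_av hL w)
      have h1 : (⟨av L m w, hAT⟩ : T) = 0 := by
        refine hα' ⟨u, huT⟩ hu hcrit _ fun t => ?_
        show M (av L m w) t = 0
        have ht := (hT t).1 t.2
        rw [hMav w t ht]
        have h2 := DFunLike.congr_fun hw (t : E)
        have h3 : M w (t : E) + c * Nb L m w (t : E) = 0 := h2
        rw [Nb_fix_right ht, mul_zero, add_zero] at h3
        rw [h3, mul_zero]
      exact congrArg Subtype.val h1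
    by_contra hw0
    apply hcB
    rw [hB]
    refine mem_biUnion (x := (⟨u, huT⟩ : T)) ⟨hu, hcrit⟩ ⟨w, hw0, ?_⟩
    have h1 : Jb L m w = Nb L m w := by
      ext y
      rw [Jb_apply, hA0, inner_zero_left, add_zero]
    rw [h1]
    exact hw

end Pool.Agent.X84.Pm
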